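import Pool.Agent.Run7.h804.RT.Core

/-!
# Rainbow triangles: the upper bound
-/

set_option autoImplicit false
open Finset
open scoped Classical

namespace Pool.Agent.Run7.h804.RT

variable {n : ℕ}

/-- the properly coloured sets of `r` vertices: rainbow triangles for `r = 3`, properly coloured
`K_4` for `r = 4` -/
noncomputable def proper (χ : Fin n → Fin n → ℕ) (r : ℕ) : Finset (Finset (Fin n)) :=
  (univ.powersetCard r).filter fun Q : Finset (Fin n) => ProperOn χ Q

theorem mem_proper {χ : Fin n → Fin n → ℕ} {r : ℕ} {Q : Finset (Fin n)} :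
    Q ∈ proper χ r ↔ Q.card = r ∧ ProperOn χ Q := by
  unfold proper
  rw [mem_filter, mem_powersetCard]
  simp

/-- the triples with two edges of the same colour -/
noncomputable def nonr (χ : Fin n → Fin n → ℕ) : Finset (Finset (Fin n)) :=
  (univ.powersetCard 3).filter fun Q : Finset (Fin n) => ¬ ProperOn χ Q

theorem card_nonr (χ : Fin n → Fin n → ℕ) :
    (proper χ 3).card + (nonr χ).card = n.choose 3 := by
  unfold proper nonr
  rw [card_filter_add_card_filter_not, card_powersetCard, card_univ, Fintype.card_fin]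

/-- the 4-sets without cherry oriented from its centre -/
noncomputable def bad (χ : Fin n → Fin n → ℕ) : Finset (Finset (Fin n)) :=
  (univ.powersetCard 4).filter fun Q : Finset (Fin n) => ¬ ∃ x ∈ Q, ∃ y ∈ Q, ∃ z ∈ Q, y ≠ z ∧
    R χ x y = true ∧ R χ x z = true ∧ χ x y = χ x z

theorem mem_bad {χ : Fin n → Fin n → ℕ} {Q : Finset (Fin n)} : Q ∈ bad χ ↔ Q.card = 4 ∧
    ¬ ∃ x ∈ Q, ∃ y ∈ Q, ∃ z ∈ Q, y ≠ z ∧
    R χ x y = true ∧ R χ x z = true ∧ χ x y = χ x z := by
  unfold bad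
  rw [mem_filter, mem_powersetCard]
  simp only [subset_univ, true_and]

theorem bad_card {χ : Fin n → Fin n → ℕ} (hs : ∀ x y, χ x y = χ y x) :
    (bad χ).card ≤ (proper χ 4).card + (lost χ).card * n := by
  have h1 : bad χ ⊆ proper χ 4 ∪ ((lost χ) ×ˢ (univ : Finset (Fin n))).image
      fun p => {p.1.1.1, p.1.1.2, p.1.2, p.2} := by
    intro Q hQ
    rw [mem_bad] at hQ
    rw [mem_union, mem_proper]
    by_cases h : ProperOn χ Q
    · exact Or.inl ⟨hQ.1, h⟩
    · right
      rcases cherry hs h with h1 | ⟨x, hx, y, hy, z, hz, hl⟩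
      · exact absurd h1 hQ.2
      · have hl' := mem_lost.1 hl
        have h2 : (((Q.erase x).erase y).erase z).card = 1 := by
          rw [card_erase_of_mem, card_erase_of_mem, card_erase_of_mem hx, hQ.1]
          · exact mem_erase.2 ⟨hl'.1.symm, hy⟩
          · exact mem_erase.2 ⟨hl'.2.2.1.symm, mem_erase.2 ⟨hl'.2.1.symm, hz⟩⟩
        obtain ⟨w, hw⟩ := card_eq_one.1 h2
        rw [mem_image]
        refine ⟨(((x, y), z), w), mem_product.2 ⟨hl, mem_univ _⟩, ?_⟩
        have hw' : w ∈ ((Q.erase x).erase y).erase z := by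
          rw [hw]
          simp
        simp only [mem_erase] at hw'
        apply eq_of_subset_of_card_le
        · intro v hv
          simp only [mem_insert, mem_singleton] at hv
          rcases hv with rfl | rfl | rfl | rfl
          · exact hx
          · exact hy
          · exact hz
          · exact hw'.2.2.2
        · rw [hQ.1, card_insert_of_notMem, card_insert_of_notMem, card_insert_of_notMem,
            card_singleton]
          · simp only [mem_singleton]
            exact fun h => hw'.1 h.symm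
          · simp only [mem_insert, mem_singleton]
            rintro (h | h)
            · exact hl'.2.2.1 h
            · exact hw'.2.1 h.symm
          · simp only [mem_insert, mem_singleton]
            rintro (h | h | h)
            · exact hl'.1 h
            · exact hl'.2.1 h
            · exact hw'.2.2.1 h.symm
  refine (card_le_card h1).trans ((card_union_le _ _).trans ?_)
  refine Nat.add_le_add_left (card_image_le.trans ?_) _
  rw [card_product, card_univ, Fintype.card_fin]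

/-- the number of triples with two edges of the same colour -/
theorem main_nat {χ : Fin n → Fin n → ℕ} (hs : ∀ x y, χ x y = χ y x) (k : ℕ) (hk : 4 ≤ k) :
    Pool.Agent.N439.CT.turan k * n.choose k ≤ (nonr χ).card * (n - 3).choose (k - 3) +
      Pool.Agent.N439.CT.turan k * ((bad χ).card * (n - 4).choose (k - 4)) := by
  refine averaging k _ hk (nonr χ) (bad χ) ?_ ?_ ?_
  · intro e he
    exact (mem_powersetCard.1 (mem_filter.1 he).1).2
  · intro e he
    exact (mem_bad.1 he).1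
  · intro S hS hgood
    have hcol : ∀ x y, χ x y < (univ.sup fun p : Fin n × Fin n => χ p.1 p.2) + 2 := by
      intro x y
      have := le_sup (f := fun p : Fin n × Fin n => χ p.1 p.2) (mem_univ (x, y))
      simp only at this
      omega
    have hcov : Pool.Agent.N439.CT.Cov (R χ) χ S := by
      intro Q hQ hQ4
      by_contra hcon
      exact hgood Q (mem_bad.2 ⟨hQ4, hcon⟩) hQ
    have h := Pool.Agent.N439.CT.tournament (R_asymm hs) (R_total hs) _ hcol hcov
    rw [hS] at h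
    refine h.trans (card_le_card ?_)
    intro e he
    rw [Pool.Agent.N439.CT.mem_ch, mem_powersetCard] at he
    obtain ⟨⟨he1, he2⟩, x, hx, y, hy, z, hz, hyz, h1, h2, h3⟩ := he
    rw [mem_filter]
    refine ⟨mem_filter.2 ⟨mem_powersetCard.2 ⟨subset_univ _, he2⟩, ?_⟩, he1⟩
    intro hp
    exact hp x hx y hy z hz (R_iff.1 h1).1 (R_iff.1 h2).1 hyz h3

/-- the density of Turán's construction -/
theorem turan_real (ε : ℝ) (s : ℕ) (hs : 2 ≤ s) (hε : 1 ≤ ε * s) :
    (4 / 9 - ε / 2) * ((3 * s).choose 3 : ℝ) ≤ (Pool.Agent.N439.CT.turan (3 * s) : ℝ) := by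
  obtain ⟨u, rfl⟩ : ∃ u, s = u + 2 := ⟨s - 2, by omega⟩
  have h1 : (Pool.Agent.N439.CT.turan (3 * (u + 2)) : ℝ) =
      ((u : ℝ) + 2) * (u + 1) * (2 * u + 3) := by
    unfold Pool.Agent.N439.CT.turan
    have e1 : 3 * (u + 2) % 3 = 0 := by omega
    have e2 : 3 * (u + 2) / 3 = u + 2 := by omega
    rw [if_pos e1, e2]
    have e3 : u + 2 - 1 = u + 1 := by omega
    have e4 : 2 * (u + 2) - 1 = 2 * u + 3 := by omega
    rw [e3, e4]
    push_cast
    ring
  have h2 : ((3 * (u + 2)).choose 3 : ℝ) = (u + 2) * (3 * u + 5) * (3 * u + 4) / 2 := by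
    rw [Nat.cast_choose_eq_ascPochhammer_div]
    rw [show (3 * (u + 2) - (3 - 1) : ℕ) = 3 * u + 4 by omega]
    simp [ascPochhammer_succ_eval, Nat.factorial]
    push_cast
    ring
  rw [h1, h2]
  push_cast at hε
  have hu : (0 : ℝ) ≤ u := Nat.cast_nonneg u
  have hε0 : 0 < ε := by
    by_contra hcon
    push Not at hcon
    nlinarith
  have h3 : 0 ≤ ((u : ℝ) + 2) * ((ε * (u + 2) - 1) * (3 * u + 5) * (3 * u + 4)) := by
    apply mul_nonneg (by linarith)
    apply mul_nonneg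
    · apply mul_nonneg (by linarith) (by linarith)
    · linarith
  nlinarith [h3, mul_nonneg hε0.le hu, mul_nonneg (mul_nonneg hε0.le hu) hu,
    mul_nonneg (mul_nonneg (mul_nonneg hε0.le hu) hu) hu, mul_nonneg hu hu,
    mul_nonneg (mul_nonneg hu hu) hu]

theorem turan_le (s : ℕ) (hs : 2 ≤ s) :
    (Pool.Agent.N439.CT.turan (3 * s) : ℝ) ≤ 1 / 2 * ((3 * s).choose 3 : ℝ) := by
  obtain ⟨u, rfl⟩ : ∃ u, s = u + 2 := ⟨s - 2, by omega⟩
  have h1 : (Pool.Agent.N439.CT.turan (3 * (u + 2)) : ℝ) =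
      ((u : ℝ) + 2) * (u + 1) * (2 * u + 3) := by
    unfold Pool.Agent.N439.CT.turan
    have e1 : 3 * (u + 2) % 3 = 0 := by omega
    have e2 : 3 * (u + 2) / 3 = u + 2 := by omega
    rw [if_pos e1, e2]
    have e3 : u + 2 - 1 = u + 1 := by omega
    have e4 : 2 * (u + 2) - 1 = 2 * u + 3 := by omega
    rw [e3, e4]
    push_cast
    ring
  have h2 : ((3 * (u + 2)).choose 3 : ℝ) = (u + 2) * (3 * u + 5) * (3 * u + 4) / 2 := by
    rw [Nat.cast_choose_eq_ascPochhammer_div]
    rw [show (3 * (u + 2) - (3 - 1) : ℕ) = 3 * u + 4 by omega]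
    simp [ascPochhammer_succ_eval, Nat.factorial]
    push_cast
    ring
  rw [h1, h2]
  have hu : (0 : ℝ) ≤ u := Nat.cast_nonneg u
  nlinarith [hu, mul_nonneg hu hu, mul_nonneg (mul_nonneg hu hu) hu]

theorem choose_four (hn : 12 ≤ n) : (n : ℝ) ^ 4 ≤ 48 * (n.choose 4 : ℝ) := by
  obtain ⟨u, rfl⟩ : ∃ u, n = u + 12 := ⟨n - 12, by omega⟩
  have h2 : ((u + 12).choose 4 : ℝ) = (u + 12) * (u + 11) * (u + 10) * (u + 9) / 24 := by
    rw [Nat.cast_choose_eq_ascPochhammer_div]
    rw [show (u + 12 - (4 - 1) : ℕ) = u + 9 by omega]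
    simp [ascPochhammer_succ_eval, Nat.factorial]
    ring
  rw [h2]
  push_cast
  have hu : (0 : ℝ) ≤ u := Nat.cast_nonneg u
  nlinarith [hu, mul_nonneg hu hu, mul_nonneg (mul_nonneg hu hu) hu,
    mul_nonneg (mul_nonneg hu hu) (mul_nonneg hu hu)]

/-- **Upper bound.** -/
theorem upper (ε : ℝ) (hε : 0 < ε) : ∃ δ : ℝ, 0 < δ ∧ ∃ n₀ : ℕ, ∀ n : ℕ, n₀ ≤ n →
    ∀ χ : Fin n → Fin n → ℕ, (∀ x y, χ x y = χ y x) →
    ((proper χ 4).card : ℝ) ≤ δ * (n : ℝ) ^ 4 → ((monoPaths χ).card : ℝ) ≤ δ * (n : ℝ) ^ 4 →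
    ((proper χ 3).card : ℝ) ≤ (5 / 9 + ε) * (n.choose 3 : ℝ) := by
  obtain ⟨s, hs⟩ : ∃ s : ℕ, 1 / ε ≤ s ∧ 2 ≤ s := by
    obtain ⟨s, hs⟩ := exists_nat_ge (1 / ε)
    exact ⟨s + 2, by push_cast; linarith, by omega⟩
  have hεs : 1 ≤ ε * s := by
    have := hs.1
    rw [div_le_iff₀ hε] at this
    linarith
  set k := 3 * s with hk
  set c4 : ℝ := (k.choose 4 : ℝ) with hc4
  have hc40 : 0 < c4 := by
    rw [hc4]
    exact_mod_cast Nat.choose_pos (by omega)
  have hc30 : 0 < (k.choose 3 : ℝ) := by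
    exact_mod_cast Nat.choose_pos (by omega)
  set η : ℝ := min 1 (ε / (96 * c4)) with hη
  have hη0 : 0 < η := lt_min one_pos (by positivity)
  have hη1 : η ≤ 1 := min_le_left _ _
  have hη2 : 96 * c4 * η ≤ ε := by
    have h1 : η ≤ ε / (96 * c4) := min_le_right _ _
    rw [le_div_iff₀ (by positivity)] at h1
    linarith
  refine ⟨η ^ 2, by positivity, max k 12, ?_⟩
  intro n hn χ hsym h4 hP
  have hnk : k ≤ n := (le_max_left _ _).trans hn
  have hn12 : 12 ≤ n := (le_max_right _ _).trans hn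
  have hn0 : (0 : ℝ) < n := by
    have : 0 < n := by omega
    exact_mod_cast this
  -- the number of lost cherries
  have hl : ((lost χ).card : ℝ) ≤ η * (n : ℝ) ^ 3 := by
    have h1 : ((lost χ).card : ℝ) ^ 2 ≤ (n : ℝ) ^ 2 * ((monoPaths χ).card : ℝ) := by
      exact_mod_cast lost_card hsym
    apply le_of_sq_le_sq _ (by positivity)
    calc ((lost χ).card : ℝ) ^ 2 ≤ (n : ℝ) ^ 2 * ((monoPaths χ).card : ℝ) := h1
      _ ≤ (n : ℝ) ^ 2 * (η ^ 2 * (n : ℝ) ^ 4) := by gcongr
      _ = (η * (n : ℝ) ^ 3) ^ 2 := by ring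
  have hb : ((bad χ).card : ℝ) ≤ 2 * η * (n : ℝ) ^ 4 := by
    have h1 : ((bad χ).card : ℝ) ≤ ((proper χ 4).card : ℝ) + ((lost χ).card : ℝ) * n := by
      exact_mod_cast bad_card hsym
    have h2 : η ^ 2 ≤ η := by nlinarith
    calc ((bad χ).card : ℝ) ≤ ((proper χ 4).card : ℝ) + ((lost χ).card : ℝ) * n := h1
      _ ≤ η ^ 2 * (n : ℝ) ^ 4 + η * (n : ℝ) ^ 3 * n := by gcongr
      _ ≤ η * (n : ℝ) ^ 4 + η * (n : ℝ) ^ 3 * n := by gcongr
      _ = _ := by ring
  -- averaging
  have hmain := main_nat hsym k (by omega)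
  have c3 : n.choose k * k.choose 3 = n.choose 3 * (n - 3).choose (k - 3) :=
    Nat.choose_mul (by omega)
  have c4' : n.choose k * k.choose 4 = n.choose 4 * (n - 4).choose (k - 4) :=
    Nat.choose_mul (by omega)
  have hNk : 0 < (n.choose k : ℝ) := by exact_mod_cast Nat.choose_pos hnk
  have hN3 : 0 < (n.choose 3 : ℝ) := by exact_mod_cast Nat.choose_pos (by omega)
  have hN4 : 0 < (n.choose 4 : ℝ) := by exact_mod_cast Nat.choose_pos (by omega)
  have c3r : (n.choose k : ℝ) * (k.choose 3 : ℝ) =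
      (n.choose 3 : ℝ) * ((n - 3).choose (k - 3) : ℝ) := by exact_mod_cast c3
  have c4r : (n.choose k : ℝ) * c4 =
      (n.choose 4 : ℝ) * ((n - 4).choose (k - 4) : ℝ) := by
    rw [hc4]
    exact_mod_cast c4'
  set t : ℝ := (Pool.Agent.N439.CT.turan k : ℝ) with ht
  set N : ℝ := ((nonr χ).card : ℝ) with hN
  set b : ℝ := ((bad χ).card : ℝ) with hbdef
  have hm : t * (n.choose k : ℝ) ≤ N * ((n - 3).choose (k - 3) : ℝ) +
      t * (b * ((n - 4).choose (k - 4) : ℝ)) := by
    rw [ht, hN, hbdef]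
    exact_mod_cast hmain
  have e3 : ((n - 3).choose (k - 3) : ℝ) = (n.choose k : ℝ) * (k.choose 3 : ℝ) / (n.choose 3 : ℝ) := by
    rw [eq_div_iff hN3.ne']
    linarith
  have e4 : ((n - 4).choose (k - 4) : ℝ) = (n.choose k : ℝ) * c4 / (n.choose 4 : ℝ) := by
    rw [eq_div_iff hN4.ne']
    linarith
  rw [e3, e4] at hm
  have ht0 : 0 ≤ t := Nat.cast_nonneg _
  have hb0 : 0 ≤ b := Nat.cast_nonneg _
  have hm2 : t ≤ N * (k.choose 3 : ℝ) / (n.choose 3 : ℝ) + t * (b * c4 / (n.choose 4 : ℝ)) := by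
    have : t * (n.choose k : ℝ) ≤ (N * (k.choose 3 : ℝ) / (n.choose 3 : ℝ) +
        t * (b * c4 / (n.choose 4 : ℝ))) * (n.choose k : ℝ) := by
      calc t * (n.choose k : ℝ) ≤ _ := hm
        _ = _ := by ring
    exact le_of_mul_le_mul_right this hNk
  have hb4 : b * c4 / (n.choose 4 : ℝ) ≤ ε := by
    rw [div_le_iff₀ hN4]
    have h1 := choose_four hn12
    calc b * c4 ≤ (2 * η * (n : ℝ) ^ 4) * c4 := by gcongr
      _ ≤ (2 * η * (48 * (n.choose 4 : ℝ))) * c4 := by gcongr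
      _ = (96 * c4 * η) * (n.choose 4 : ℝ) := by ring
      _ ≤ ε * (n.choose 4 : ℝ) := by gcongr
  have htk : t ≤ 1 / 2 * (k.choose 3 : ℝ) := by
    rw [ht, hk]
    exact turan_le s hs.2
  have ht2 := turan_real ε s hs.2 hεs
  rw [← hk] at ht2
  have hx : (4 / 9 - ε) * (k.choose 3 : ℝ) ≤ N * (k.choose 3 : ℝ) / (n.choose 3 : ℝ) := by
    have h1 : t * (b * c4 / (n.choose 4 : ℝ)) ≤ (1 / 2 * (k.choose 3 : ℝ)) * ε := by
      exact mul_le_mul htk hb4 (div_nonneg (mul_nonneg hb0 hc40.le) hN4.le)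
        (mul_nonneg (by norm_num) hc30.le)
    nlinarith
  have hx2 : (4 / 9 - ε) * (n.choose 3 : ℝ) ≤ N := by
    have h1 : (4 / 9 - ε) * (k.choose 3 : ℝ) ≤ (N / (n.choose 3 : ℝ)) * (k.choose 3 : ℝ) := by
      calc _ ≤ _ := hx
        _ = _ := by ring
    have h2 := le_of_mul_le_mul_right h1 hc30
    rwa [le_div_iff₀ hN3] at h2
  have hsum : ((proper χ 3).card : ℝ) + N = (n.choose 3 : ℝ) := by
    rw [hN]
    exact_mod_cast card_nonr χ
  linarith

end Pool.Agent.Run7.h804.RT
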