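import Pool.Agent.N439.CT.Main

/-!
# Rainbow triangles: orientation by degrees and averaging
-/

set_option autoImplicit false
open Finset
open scoped Classical

namespace Pool.Agent.Run7.h804.RT

variable {n : ℕ}

/-- The edge-colouring `χ` is proper on `Q`: two edges inside `Q` with a common end have different
colours. -/
def ProperOn (χ : Fin n → Fin n → ℕ) (Q : Finset (Fin n)) : Prop :=
  ∀ x ∈ Q, ∀ y ∈ Q, ∀ z ∈ Q, x ≠ y → x ≠ z → y ≠ z → χ x y ≠ χ x z

/-- the neighbours of `x` in the colour `c` -/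
noncomputable def nb (χ : Fin n → Fin n → ℕ) (x : Fin n) (c : ℕ) : Finset (Fin n) :=
  univ.filter fun y => y ≠ x ∧ χ x y = c

theorem mem_nb {χ : Fin n → Fin n → ℕ} {x y : Fin n} {c : ℕ} :
    y ∈ nb χ x c ↔ y ≠ x ∧ χ x y = c := by
  unfold nb
  rw [mem_filter]
  simp

/-- `x` beats `y`: the degree of `x` in the colour of `xy` is larger than the one of `y` (or equal,
and `x` has the larger number) -/
noncomputable def R (χ : Fin n → Fin n → ℕ) (x y : Fin n) : Bool :=
  decide (x ≠ y ∧ ((nb χ y (χ x y)).card < (nb χ x (χ x y)).card ∨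
    ((nb χ y (χ x y)).card = (nb χ x (χ x y)).card ∧ y < x)))

theorem R_iff {χ : Fin n → Fin n → ℕ} {x y : Fin n} : R χ x y = true ↔
    (x ≠ y ∧ ((nb χ y (χ x y)).card < (nb χ x (χ x y)).card ∨
    ((nb χ y (χ x y)).card = (nb χ x (χ x y)).card ∧ y < x))) := by
  unfold R
  rw [decide_eq_true_eq]

theorem R_asymm {χ : Fin n → Fin n → ℕ} (hs : ∀ x y, χ x y = χ y x) (x y : Fin n)
    (h : R χ x y = true) : R χ y x = false := by
  rw [← Bool.not_eq_true]
  intro h'
  rw [R_iff] at h h'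
  rw [hs y x] at h'
  obtain ⟨_, h | h⟩ := h <;> obtain ⟨_, h' | h'⟩ := h'
  · omega
  · omega
  · omega
  · exact absurd (h.2.trans h'.2) (lt_irrefl _)

theorem R_total {χ : Fin n → Fin n → ℕ} (hs : ∀ x y, χ x y = χ y x) (x y : Fin n)
    (h : x ≠ y) : R χ x y = true ∨ R χ y x = true := by
  rw [R_iff, R_iff, hs y x]
  rcases lt_trichotomy (nb χ y (χ x y)).card (nb χ x (χ x y)).card with h1 | h1 | h1
  · exact Or.inl ⟨h, Or.inl h1⟩
  · rcases lt_or_gt_of_ne h with h2 | h2
    · exact Or.inr ⟨h.symm, Or.inr ⟨h1.symm, h2⟩⟩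
    · exact Or.inl ⟨h, Or.inr ⟨h1, h2⟩⟩
  · exact Or.inr ⟨h.symm, Or.inl h1⟩

/-- the induced monochromatic cherries `y - x - z` in which `y` beats the centre `x` -/
noncomputable def lost (χ : Fin n → Fin n → ℕ) : Finset ((Fin n × Fin n) × Fin n) :=
  univ.filter fun p => p.1.1 ≠ p.1.2 ∧ p.1.1 ≠ p.2 ∧ p.1.2 ≠ p.2 ∧
    χ p.1.1 p.1.2 = χ p.1.1 p.2 ∧ χ p.1.2 p.2 ≠ χ p.1.1 p.1.2 ∧ R χ p.1.2 p.1.1 = true

theorem mem_lost {χ : Fin n → Fin n → ℕ} {x y z : Fin n} : ((x, y), z) ∈ lost χ ↔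
    x ≠ y ∧ x ≠ z ∧ y ≠ z ∧ χ x y = χ x z ∧ χ y z ≠ χ x y ∧ R χ y x = true := by
  unfold lost
  rw [mem_filter]
  simp

/-- a set on which the colouring is not proper contains a cherry oriented from its centre, or a
lost cherry -/
theorem cherry {χ : Fin n → Fin n → ℕ} (hs : ∀ x y, χ x y = χ y x) {Q : Finset (Fin n)}
    (hQ : ¬ ProperOn χ Q) :
    (∃ x ∈ Q, ∃ y ∈ Q, ∃ z ∈ Q, y ≠ z ∧ R χ x y = true ∧ R χ x z = true ∧ χ x y = χ x z) ∨
    (∃ x ∈ Q, ∃ y ∈ Q, ∃ z ∈ Q, ((x, y), z) ∈ lost χ) := by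
  unfold ProperOn at hQ
  push Not at hQ
  obtain ⟨x, hx, y, hy, z, hz, hxy, hxz, hyz, hc⟩ := hQ
  by_cases hm : χ y z = χ x y
  · left
    have e1 := hs x y
    have e2 := hs x z
    have e3 := hs y z
    rcases R_total hs x y hxy with a | a
    · rcases R_total hs x z hxz with b | b
      · exact ⟨x, hx, y, hy, z, hz, hyz, a, b, hc⟩
      · rcases R_total hs y z hyz with d | d
        · exfalso
          rw [R_iff] at a b d
          rw [← e2, ← hc] at b
          rw [hm] at d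
          obtain ⟨_, a | a⟩ := a <;> obtain ⟨_, b | b⟩ := b <;> obtain ⟨_, d | d⟩ := d
          any_goals omega
          all_goals
            obtain ⟨_, a⟩ := a
            obtain ⟨_, b⟩ := b
            obtain ⟨_, d⟩ := d
            exact absurd ((a.trans b).trans d) (lt_irrefl _)
        · exact ⟨z, hz, x, hx, y, hy, hxy, b, d, by rw [← e2, ← e3, hm, hc]⟩
    · rcases R_total hs y z hyz with d | d
      · exact ⟨y, hy, x, hx, z, hz, hxz, a, d, by rw [← e1, hm]⟩
      · rcases R_total hs x z hxz with b | b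
        · exfalso
          rw [R_iff] at a b d
          rw [← e1] at a
          rw [← hc] at b
          rw [← e3, hm] at d
          obtain ⟨_, a | a⟩ := a <;> obtain ⟨_, b | b⟩ := b <;> obtain ⟨_, d | d⟩ := d
          any_goals omega
          all_goals
            obtain ⟨_, a⟩ := a
            obtain ⟨_, b⟩ := b
            obtain ⟨_, d⟩ := d
            exact absurd ((b.trans a).trans d) (lt_irrefl _)
        · exact ⟨z, hz, x, hx, y, hy, hxy, b, d, by rw [← e2, ← e3, hm, hc]⟩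
  · rcases R_total hs x y hxy with a | a
    · rcases R_total hs x z hxz with b | b
      · exact Or.inl ⟨x, hx, y, hy, z, hz, hyz, a, b, hc⟩
      · right
        refine ⟨x, hx, z, hz, y, hy, ?_⟩
        rw [mem_lost]
        refine ⟨hxz, hxy, hyz.symm, hc.symm, ?_, b⟩
        rw [hs z y, ← hc]
        exact hm
    · right
      refine ⟨x, hx, y, hy, z, hz, ?_⟩
      rw [mem_lost]
      exact ⟨hxy, hxz, hyz, hc, hm, a⟩

/-- the quadruples `(a, b, c, d)` of different vertices such that `ab`, `bc`, `cd` have the same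
colour and `ac`, `bd` have other colours: in other words, the induced paths on four vertices and
the induced cycles on four vertices of the colour classes -/
noncomputable def monoPaths (χ : Fin n → Fin n → ℕ) :
    Finset ((Fin n × Fin n) × (Fin n × Fin n)) :=
  univ.filter fun p => p.1.1 ≠ p.1.2 ∧ p.1.1 ≠ p.2.1 ∧ p.1.1 ≠ p.2.2 ∧ p.1.2 ≠ p.2.1 ∧
    p.1.2 ≠ p.2.2 ∧ p.2.1 ≠ p.2.2 ∧ χ p.1.1 p.1.2 = χ p.1.2 p.2.1 ∧
    χ p.2.1 p.2.2 = χ p.1.2 p.2.1 ∧ χ p.1.1 p.2.1 ≠ χ p.1.2 p.2.1 ∧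
    χ p.1.2 p.2.2 ≠ χ p.1.2 p.2.1

theorem mem_monoPaths {χ : Fin n → Fin n → ℕ} {a b c d : Fin n} :
    ((a, b), (c, d)) ∈ monoPaths χ ↔ a ≠ b ∧ a ≠ c ∧ a ≠ d ∧ b ≠ c ∧ b ≠ d ∧ c ≠ d ∧
      χ a b = χ b c ∧ χ c d = χ b c ∧ χ a c ≠ χ b c ∧ χ b d ≠ χ b c := by
  unfold monoPaths
  rw [mem_filter]
  simp

/-- the private neighbours of `x` with respect to `y` in the colour of `xy` -/
noncomputable def pr (χ : Fin n → Fin n → ℕ) (x y : Fin n) : Finset (Fin n) :=
  univ.filter fun z => x ≠ z ∧ y ≠ z ∧ χ x z = χ x y ∧ χ y z ≠ χ x y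

theorem mem_pr {χ : Fin n → Fin n → ℕ} {x y z : Fin n} :
    z ∈ pr χ x y ↔ x ≠ z ∧ y ≠ z ∧ χ x z = χ x y ∧ χ y z ≠ χ x y := by
  unfold pr
  rw [mem_filter]
  simp

theorem nb_card {χ : Fin n → Fin n → ℕ} (hs : ∀ x y, χ x y = χ y x) {x y : Fin n} (h : x ≠ y) :
    (nb χ x (χ x y)).card = (nb χ x (χ x y) ∩ nb χ y (χ x y)).card + (pr χ x y).card + 1 := by
  have h1 : nb χ x (χ x y) = insert y ((nb χ x (χ x y) ∩ nb χ y (χ x y)) ∪ pr χ x y) := by
    ext z
    rw [mem_insert, mem_union, mem_inter, mem_nb, mem_nb, mem_pr]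
    constructor
    · rintro ⟨h1, h2⟩
      by_cases h3 : z = y
      · exact Or.inl h3
      · right
        by_cases h4 : χ y z = χ x y
        · exact Or.inl ⟨⟨h1, h2⟩, h3, h4⟩
        · exact Or.inr ⟨fun h => h1 h.symm, fun h => h3 h.symm, h2, h4⟩
    · rintro (h1 | h1 | h1)
      · rw [h1]
        exact ⟨h.symm, rfl⟩
      · exact h1.1
      · exact ⟨fun h => h1.1 h.symm, h1.2.2.1⟩
  have h2 : y ∉ (nb χ x (χ x y) ∩ nb χ y (χ x y)) ∪ pr χ x y := by
    rw [mem_union, mem_inter, mem_nb, mem_nb, mem_pr]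
    rintro (h1 | h1)
    · exact h1.2.1 rfl
    · exact h1.2.1 rfl
  have h3 : Disjoint (nb χ x (χ x y) ∩ nb χ y (χ x y)) (pr χ x y) := by
    rw [disjoint_left]
    intro z hz hz'
    rw [mem_inter, mem_nb, mem_nb] at hz
    rw [mem_pr] at hz'
    exact hz'.2.2.2 hz.2.2
  conv_lhs => rw [h1]
  rw [card_insert_of_notMem h2, card_union_of_disjoint h3]

theorem pr_le {χ : Fin n → Fin n → ℕ} (hs : ∀ x y, χ x y = χ y x) {x y : Fin n}
    (h : R χ y x = true) : (pr χ x y).card ≤ (pr χ y x).card := by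
  rw [R_iff] at h
  have h1 := nb_card hs h.1.symm
  have h2 := nb_card hs h.1
  rw [hs y x] at h h2
  rw [inter_comm] at h2
  omega

/-- the number of lost cherries -/
theorem lost_card {χ : Fin n → Fin n → ℕ} (hs : ∀ x y, χ x y = χ y x) :
    (lost χ).card ^ 2 ≤ n ^ 2 * (monoPaths χ).card := by
  set B : Finset (Fin n × Fin n) := univ.filter fun p => p.1 ≠ p.2 ∧ R χ p.2 p.1 = true with hB
  have h1 : (lost χ).card ≤ ∑ p ∈ B, (pr χ p.1 p.2).card := by
    rw [← card_sigma]
    apply card_le_card_of_injOn (fun q => ⟨q.1, q.2⟩)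
    · rintro ⟨⟨x, y⟩, z⟩ hq
      have hq' := mem_coe.1 hq
      rw [mem_lost] at hq'
      apply mem_coe.2
      rw [mem_sigma]
      refine ⟨mem_filter.2 ⟨mem_univ _, hq'.1, hq'.2.2.2.2.2⟩, ?_⟩
      rw [mem_pr]
      exact ⟨hq'.2.1, hq'.2.2.1, hq'.2.2.2.1.symm, hq'.2.2.2.2.1⟩
    · rintro ⟨⟨x, y⟩, z⟩ _ ⟨⟨x', y'⟩, z'⟩ _ h
      simp only [Sigma.mk.injEq, Prod.mk.injEq, heq_eq_eq] at h
      obtain ⟨⟨rfl, rfl⟩, rfl⟩ := h
      rfl
  have h2 : ∑ p ∈ B, (pr χ p.1 p.2).card ^ 2 ≤ (monoPaths χ).card := by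
    calc ∑ p ∈ B, (pr χ p.1 p.2).card ^ 2
        ≤ ∑ p ∈ B, ((pr χ p.1 p.2) ×ˢ (pr χ p.2 p.1)).card := by
          apply sum_le_sum
          intro p hp
          rw [card_product, sq]
          exact Nat.mul_le_mul_left _ (pr_le hs (mem_filter.1 hp).2.2)
      _ ≤ (monoPaths χ).card := by
          rw [← card_sigma]
          apply card_le_card_of_injOn (fun q => ((q.2.1, q.1.1), (q.1.2, q.2.2)))
          · rintro ⟨⟨x, y⟩, ⟨z, u⟩⟩ hq
            have hq' := mem_coe.1 hq
            rw [mem_sigma, mem_product] at hq'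
            simp only at hq'
            rw [mem_pr, mem_pr] at hq'
            obtain ⟨hp, ⟨a1, a2, a3, a4⟩, ⟨b1, b2, b3, b4⟩⟩ := hq'
            have hp' := (mem_filter.1 hp).2.1
            simp only at hp'
            apply mem_coe.2
            simp only
            rw [mem_monoPaths]
            rw [hs y x] at b3 b4
            refine ⟨a1.symm, a2.symm, ?_, hp', b2, b1, ?_, b3, ?_, b4⟩
            · rintro rfl
              exact b4 a3
            · rw [hs z x]
              exact a3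
            · rw [hs z y]
              exact a4
          · rintro ⟨⟨x, y⟩, ⟨z, u⟩⟩ _ ⟨⟨x', y'⟩, ⟨z', u'⟩⟩ _ h
            simp only [Prod.mk.injEq] at h
            obtain ⟨⟨rfl, rfl⟩, ⟨rfl, rfl⟩⟩ := h
            rfl
  have h3 : (∑ p ∈ B, (pr χ p.1 p.2).card) ^ 2 ≤ B.card * ∑ p ∈ B, (pr χ p.1 p.2).card ^ 2 :=
    sq_sum_le_card_mul_sum_sq
  have h4 : B.card ≤ n ^ 2 := by
    refine (card_filter_le _ _).trans ?_
    rw [card_univ, Fintype.card_prod, Fintype.card_fin, sq]
  calc (lost χ).card ^ 2 ≤ (∑ p ∈ B, (pr χ p.1 p.2).card) ^ 2 := Nat.pow_le_pow_left h1 2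
    _ ≤ B.card * ∑ p ∈ B, (pr χ p.1 p.2).card ^ 2 := h3
    _ ≤ n ^ 2 * (monoPaths χ).card := Nat.mul_le_mul h4 h2

/-- the supersets of a set -/
theorem card_supersets (k : ℕ) (e : Finset (Fin n)) (h : e.card ≤ k) :
    ((univ.powersetCard k).filter fun S : Finset (Fin n) => e ⊆ S).card =
      (n - e.card).choose (k - e.card) := by
  have h1 : (univ \ e : Finset (Fin n)).card = n - e.card := by
    rw [card_sdiff_of_subset (subset_univ e), card_univ, Fintype.card_fin]
  rw [← h1, ← card_powersetCard]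
  refine card_bij' (fun S _ => S \ e) (fun S _ => S ∪ e) ?_ ?_ ?_ ?_
  · intro S hS
    rw [mem_filter, mem_powersetCard] at hS
    rw [mem_powersetCard]
    exact ⟨sdiff_subset_sdiff (subset_univ _) (subset_refl _), by
      rw [card_sdiff_of_subset hS.2, hS.1.2]⟩
  · intro S hS
    rw [mem_powersetCard] at hS
    rw [mem_filter, mem_powersetCard]
    have hd : Disjoint S e := by
      rw [disjoint_left]
      intro x hx hx'
      exact (mem_sdiff.1 (hS.1 hx)).2 hx'
    refine ⟨⟨subset_univ _, ?_⟩, subset_union_right⟩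
    rw [card_union_of_disjoint hd, hS.2]
    omega
  · intro S hS
    rw [mem_filter] at hS
    exact sdiff_union_of_subset hS.2
  · intro S hS
    rw [mem_powersetCard] at hS
    have hd : Disjoint S e := by
      rw [disjoint_left]
      intro x hx hx'
      exact (mem_sdiff.1 (hS.1 hx)).2 hx'
    exact union_sdiff_cancel_right hd

theorem sum_supersets (k r : ℕ) (hr : r ≤ k) (T : Finset (Finset (Fin n)))
    (hT : ∀ e ∈ T, e.card = r) :
    ∑ S ∈ (univ : Finset (Fin n)).powersetCard k, (T.filter fun e => e ⊆ S).card =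
      T.card * (n - r).choose (k - r) := by
  calc ∑ S ∈ (univ : Finset (Fin n)).powersetCard k, (T.filter fun e => e ⊆ S).card
      = ∑ e ∈ T, ((univ.powersetCard k).filter fun S : Finset (Fin n) => e ⊆ S).card := by
        simp only [card_filter]
        exact sum_comm
    _ = ∑ e ∈ T, (n - r).choose (k - r) := by
        apply sum_congr rfl
        intro e he
        have := hT e he
        rw [card_supersets k e (by omega), this]
    _ = _ := by rw [sum_const, smul_eq_mul]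

/-- averaging over the sets of `k` vertices -/
theorem averaging (k t : ℕ) (hk : 4 ≤ k) (T bad : Finset (Finset (Fin n)))
    (hT : ∀ e ∈ T, e.card = 3) (hb : ∀ e ∈ bad, e.card = 4)
    (h : ∀ S : Finset (Fin n), S.card = k → (∀ Q ∈ bad, ¬ Q ⊆ S) →
      t ≤ (T.filter fun e => e ⊆ S).card) :
    t * n.choose k ≤ T.card * (n - 3).choose (k - 3) +
      t * (bad.card * (n - 4).choose (k - 4)) := by
  rw [← sum_supersets k 3 (by omega) T hT, ← sum_supersets k 4 hk bad hb, mul_sum,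
    ← sum_add_distrib]
  calc t * n.choose k = ∑ S ∈ (univ : Finset (Fin n)).powersetCard k, t := by
        rw [sum_const, card_powersetCard, card_univ, Fintype.card_fin, smul_eq_mul, mul_comm]
    _ ≤ _ := by
        apply sum_le_sum
        intro S hS
        rw [mem_powersetCard] at hS
        by_cases h1 : ∀ Q ∈ bad, ¬ Q ⊆ S
        · exact (h S hS.2 h1).trans (Nat.le_add_right _ _)
        · push Not at h1
          obtain ⟨Q, hQ, hQS⟩ := h1
          have h2 : 0 < (bad.filter fun e => e ⊆ S).card :=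
            card_pos.2 ⟨Q, mem_filter.2 ⟨hQ, hQS⟩⟩
          exact (Nat.le_mul_of_pos_right t h2).trans (Nat.le_add_left _ _)

end Pool.Agent.Run7.h804.RT
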